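import Pool.Agent.Run7.h207.GC.Iface

set_option autoImplicit false

namespace Pool.Agent.Run7.h207.GC.AA

open Finset Matrix Pool.Agent.H162R2.AG Pool.Agent.H162R2.Sparse Pool.Agent.Run7.h207.GC

theorem cnt_compl {n : ℕ} (P : SimpleGraph (Fin n) → Prop) :
    cnt (fun G : SimpleGraph (Fin n) => P Gᶜ) = cnt P := by
  classical
  rw [cnt_eq_sum, cnt_eq_sum]
  exact Fintype.sum_equiv (Equiv.mk (fun G : SimpleGraph (Fin n) => Gᶜ) (fun G => Gᶜ)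
    (fun G => compl_compl G) (fun G => compl_compl G)) _ _ fun G => rfl

theorem t_AA : J_DET → J_R1 → J_R2 → J_R3 → J_AA := by
  intro hD h1 h2 h3 C δ hδ
  obtain ⟨n1, h1⟩ := h1 (C + 1) (δ / 6) (by positivity)
  obtain ⟨n2, h2⟩ := h2 (C + 1) (δ / 6) (by positivity)
  obtain ⟨n3, h3⟩ := h3 (C + 1) (δ / 6) (by positivity)
  refine ⟨max (max n1 n2) (max n3 (max 2 ⌈4 * C ^ 2⌉₊)), fun n hn => ?_⟩
  have hn1 : n1 ≤ n := le_trans (le_trans (le_max_left _ _) (le_max_left _ _)) hn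
  have hn2 : n2 ≤ n := le_trans (le_trans (le_max_right _ _) (le_max_left _ _)) hn
  have hn3 : n3 ≤ n := le_trans (le_trans (le_max_left _ _) (le_max_right _ _)) hn
  have hn4 : 2 ≤ n :=
    le_trans (le_trans (le_trans (le_max_left _ _) (le_max_right _ _)) (le_max_right _ _)) hn
  have hn5 : ⌈4 * C ^ 2⌉₊ ≤ n :=
    le_trans (le_trans (le_trans (le_max_right _ _) (le_max_right _ _)) (le_max_right _ _)) hn
  have hn6 : 4 * C ^ 2 ≤ n := le_trans (Nat.le_ceil _) (by exact_mod_cast hn5)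
  have hs : √(n : ℝ) * √(n : ℝ) = n := Real.mul_self_sqrt (Nat.cast_nonneg n)
  have hs1 : 1 ≤ √(n : ℝ) := by
    rw [Real.one_le_sqrt]
    exact_mod_cast (by omega : 1 ≤ n)
  have hs2 : 2 * C ≤ √(n : ℝ) := by
    apply Real.le_sqrt_of_sq_le
    nlinarith
  have h0 : 0 ≤ (n : ℝ) / 2 - C * √n := by
    nlinarith
  obtain ⟨d, hd⟩ : ∃ d : ℕ, d = ⌊(n : ℝ) / 2 - C * √n⌋₊ := ⟨_, rfl⟩
  have hd1 : (d : ℝ) ≤ (n : ℝ) / 2 - C * √n := by
    rw [hd]; exact Nat.floor_le h0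
  have hd2 : (n : ℝ) / 2 - (C + 1) * √n ≤ d := by
    have := Nat.lt_floor_add_one ((n : ℝ) / 2 - C * √n)
    rw [← hd] at this
    nlinarith
  have k1 := h1 n hn1 d hd2
  have k2 := h2 n hn2 d hd2
  have k3 := h3 n hn3 d hd2
  have hB : cnt (fun H : SimpleGraph (Fin n) => ¬ R1 n d H ∨ ¬ R2 n d H ∨ ¬ R3 n d H) ≤
      δ / 2 * Fintype.card (SimpleGraph (Fin n)) := by
    refine (cnt_or_le _ _).trans ?_
    have := cnt_or_le (fun H : SimpleGraph (Fin n) => ¬ R2 n d H) (fun H => ¬ R3 n d H)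
    linarith
  have key : ∀ H : SimpleGraph (Fin n), ¬ (¬ R1 n d H ∨ ¬ R2 n d H ∨ ¬ R3 n d H) →
      Pool.Agent.Y404.GccSap.HasSap Hᶜ d := by
    intro H hH
    push Not at hH
    exact hD n d H hn4 hH.1 hH.2.1 hH.2.2
  refine (cnt_mono (Q := fun G : SimpleGraph (Fin n) =>
    (¬ R1 n d G ∨ ¬ R2 n d G ∨ ¬ R3 n d G) ∨
      (¬ R1 n d Gᶜ ∨ ¬ R2 n d Gᶜ ∨ ¬ R3 n d Gᶜ)) ?_).trans ?_
  · intro G hG
    by_contra hcon
    rw [not_or] at hcon
    refine hG ⟨d, hd1, ?_, key G hcon.1⟩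
    have := key Gᶜ hcon.2
    rwa [compl_compl] at this
  · refine (cnt_or_le _ _).trans ?_
    have := cnt_compl (fun H : SimpleGraph (Fin n) => ¬ R1 n d H ∨ ¬ R2 n d H ∨ ¬ R3 n d H)
    rw [this]
    linarith

end Pool.Agent.Run7.h207.GC.AA
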