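import Pool.Agent.Run7.h207.GC.Iface

set_option autoImplicit false

/-!
Project GC (helper207), piece IM (helper382): the sequential construction of orthogonal representations.
The projection and its properties are adapted from `Pool.Agent.Helper861.DeltaA` (index type `ℕ` there).
-/

namespace Pool.Agent.Run7.h207.GC

open Finset Matrix

namespace IMx

open scoped Classical

section Ring

variable {V : Type} {A : Type} [CommRing A] {B : Type} [CommRing B] {d : ℕ}

/-- The Gram matrix of the vectors indexed by `S`. -/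
noncomputable def gram (v : V → Fin d → A) (S : Finset V) : Matrix S S A :=
  Matrix.of fun i j => v i ⬝ᵥ v j

/-- `det (gram v S)` times the projection of `x` to the complement of the `v i`, `i ∈ S`. -/
noncomputable def proj (S : Finset V) (v : V → Fin d → A) (x : Fin d → A) : Fin d → A :=
  (gram v S).det • x -
    ∑ i : S, (((gram v S).adjugate *ᵥ fun j : S => v j ⬝ᵥ x) i) • v i

theorem proj_orth (S : Finset V) (v : V → Fin d → A) (x : Fin d → A) (l : V)
    (hl : l ∈ S) : v l ⬝ᵥ proj S v x = 0 := by
  have h1 : (gram v S) *ᵥ ((gram v S).adjugate *ᵥ fun j : S => v j ⬝ᵥ x)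
      = (gram v S).det • (fun j : S => v j ⬝ᵥ x) := by
    rw [Matrix.mulVec_mulVec, Matrix.mul_adjugate, Matrix.smul_mulVec, Matrix.one_mulVec]
  have h2 := congrFun h1 ⟨l, hl⟩
  unfold proj
  rw [dotProduct_sub, dotProduct_smul, dotProduct_sum]
  simp only [dotProduct_smul, smul_eq_mul]
  simp only [Matrix.mulVec, Pi.smul_apply, smul_eq_mul] at h2
  rw [← h2, sub_eq_zero]
  unfold dotProduct
  refine Finset.sum_congr rfl fun i _ => ?_
  simp only [gram, Matrix.of_apply, dotProduct, Matrix.mulVec]
  ring

theorem proj_of_orth (S : Finset V) (v : V → Fin d → A) (x : Fin d → A)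
    (h : ∀ j ∈ S, v j ⬝ᵥ x = 0) : proj S v x = (gram v S).det • x := by
  unfold proj
  have : (fun j : S => v j ⬝ᵥ x) = 0 := by
    funext j
    exact h j j.2
  rw [this, Matrix.mulVec_zero]
  simp

theorem gram_congr {S : Finset V} {v v' : V → Fin d → A} (h : ∀ i ∈ S, v i = v' i) :
    gram v S = gram v' S := by
  ext i j
  simp only [gram, Matrix.of_apply]
  rw [h i i.2, h j j.2]

theorem proj_congr {S : Finset V} {v v' : V → Fin d → A} {x x' : Fin d → A}
    (h : ∀ i ∈ S, v i = v' i) (hx : x = x') : proj S v x = proj S v' x' := by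
  subst hx
  unfold proj
  rw [gram_congr h]
  have h1 : (fun j : S => v j ⬝ᵥ x) = (fun j : S => v' j ⬝ᵥ x) := by
    funext j
    rw [h j j.2]
  rw [h1]
  congr 1
  refine Finset.sum_congr rfl fun i _ => ?_
  rw [h i i.2]

theorem map_dot (φ : A →+* B) (x y : Fin d → A) :
    φ (x ⬝ᵥ y) = (fun i => φ (x i)) ⬝ᵥ (fun i => φ (y i)) := by
  simp [dotProduct, map_sum, map_mul]

theorem map_gram (φ : A →+* B) (v : V → Fin d → A) (S : Finset V) :
    φ.mapMatrix (gram v S) = gram (fun k i => φ (v k i)) S := by
  ext i j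
  simp only [RingHom.mapMatrix_apply, Matrix.map_apply, gram, Matrix.of_apply]
  exact map_dot φ _ _

theorem map_proj (φ : A →+* B) (S : Finset V) (v : V → Fin d → A) (x : Fin d → A) :
    (fun k => φ (proj S v x k)) = proj S (fun k i => φ (v k i)) (fun k => φ (x k)) := by
  funext k
  unfold proj
  rw [← map_gram φ v S, ← RingHom.map_det, ← RingHom.map_adjugate]
  simp only [Pi.sub_apply, Pi.smul_apply, smul_eq_mul, Finset.sum_apply, map_sub, map_mul, map_sum]
  congr 1
  refine Finset.sum_congr rfl fun i _ => ?_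
  congr 1
  simp only [Matrix.mulVec, dotProduct, map_sum, map_mul, RingHom.mapMatrix_apply,
    Matrix.map_apply]

/-- the sequential construction -/
noncomputable def Phi (H : SimpleGraph V) : List V → (V → Fin d → A) → V → Fin d → A
  | [], x => x
  | i :: l, x => Function.update (Phi H l x) i (proj (nbl H l i) (Phi H l x) (x i))

theorem Phi_out (H : SimpleGraph V) (l : List V) (x : V → Fin d → A) (i : V) (hi : i ∉ l) :
    Phi H l x i = x i := by
  induction l with
  | nil => rfl
  | cons a l ih =>
    rw [List.mem_cons, not_or] at hi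
    rw [Phi, Function.update_of_ne hi.1]
    exact ih hi.2

theorem Phi_congr (H : SimpleGraph V) (l : List V) (x x' : V → Fin d → A)
    (h : ∀ j ∈ l, x j = x' j) : ∀ j ∈ l, Phi H l x j = Phi H l x' j := by
  induction l with
  | nil => intro j hj; simp at hj
  | cons a l ih =>
    have ih' := ih fun j hj => h j (List.mem_cons_of_mem _ hj)
    intro j hj
    rw [Phi, Phi]
    by_cases hja : j = a
    · subst hja
      rw [Function.update_self, Function.update_self]
      exact proj_congr (fun s hs => ih' s (mem_nbl.mp hs).1) (h j hj)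
    · rw [Function.update_of_ne hja, Function.update_of_ne hja]
      rw [List.mem_cons] at hj
      exact ih' j (hj.resolve_left hja)

theorem Phi_map (H : SimpleGraph V) (φ : A →+* B) (l : List V) (t : V → Fin d → A) :
    (fun i a => φ (Phi H l t i a)) = Phi H l (fun i a => φ (t i a)) := by
  induction l with
  | nil => rfl
  | cons a l ih =>
    rw [Phi, Phi, ← ih, ← map_proj φ]
    funext j b
    by_cases hja : j = a
    · subst hja
      rw [Function.update_self, Function.update_self]
    · rw [Function.update_of_ne hja, Function.update_of_ne hja]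

end Ring

variable {V : Type} {d : ℕ}

theorem det_ne (w : V → Fin d → ℝ) (S : Finset V) (h : LI w S) : (gram w S).det ≠ 0 := by
  intro hdet
  obtain ⟨c, hc, hc0⟩ := Matrix.exists_mulVec_eq_zero_iff.mpr hdet
  apply hc
  have h1 : ∀ i : S, w i ⬝ᵥ (∑ j : S, c j • w j) = 0 := by
    intro i
    have := congrFun hc0 i
    simp only [Matrix.mulVec, dotProduct, gram, Matrix.of_apply, Pi.zero_apply] at this
    rw [← this, dotProduct_sum]
    refine Finset.sum_congr rfl fun j _ => ?_
    rw [dotProduct_smul, smul_eq_mul, mul_comm]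
    rfl
  have h2 : (∑ i : S, c i • w i) ⬝ᵥ (∑ j : S, c j • w j) = 0 := by
    rw [sum_dotProduct]
    refine Finset.sum_eq_zero fun i _ => ?_
    rw [smul_dotProduct, h1 i, smul_zero]
  have h3 : (∑ i : S, c i • w i) = 0 := dotProduct_self_eq_zero.mp h2
  have h4 : LinearIndependent ℝ (fun i : S => w i) := h
  funext i
  exact Fintype.linearIndependent_iff.mp h4 c h3 i

/-- the image of the construction -/
def ImS (H : SimpleGraph V) (l : List V) : Set (V → Fin d → ℝ) := {w | ∃ x, Phi H l x = w}

theorem ImS_congr (H : SimpleGraph V) (l : List V) (w w' : V → Fin d → ℝ) (hw : w ∈ ImS H l)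
    (h : ∀ j ∈ l, w' j = w j) : w' ∈ ImS H l := by
  obtain ⟨x, rfl⟩ := hw
  refine ⟨fun j => if j ∈ l then x j else w' j, ?_⟩
  funext j
  by_cases hj : j ∈ l
  · rw [h j hj]
    exact Phi_congr H l _ _ (fun k hk => by simp [hk]) j hj
  · rw [Phi_out H l _ j hj, if_neg hj]

theorem ImS_orth (H : SimpleGraph V) (l : List V) (x : V → Fin d → ℝ) (hl : l.Nodup) :
    Orth H (Phi H l x) l := by
  induction l with
  | nil => intro i hi; simp at hi
  | cons a l ih =>
    rw [List.nodup_cons] at hl
    have ih' := ih hl.2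
    have key : ∀ j ∈ l, H.Adj a j → Phi H (a :: l) x a ⬝ᵥ Phi H (a :: l) x j = 0 := by
      intro j hj hadj
      have hja : j ≠ a := fun h => hl.1 (h ▸ hj)
      rw [Phi, Function.update_self, Function.update_of_ne hja, dotProduct_comm]
      exact proj_orth _ _ _ _ (mem_nbl.mpr ⟨hj, hadj⟩)
    intro i hi j hj hadj
    rw [List.mem_cons] at hi hj
    rcases hi with rfl | hi
    · rcases hj with rfl | hj
      · exact absurd hadj (H.loopless.irrefl _)
      · exact key j hj hadj
    · rcases hj with rfl | hj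
      · rw [dotProduct_comm]
        exact key i hi hadj.symm
      · have hia : i ≠ a := fun h => hl.1 (h ▸ hi)
        have hja : j ≠ a := fun h => hl.1 (h ▸ hj)
        rw [Phi, Function.update_of_ne hia, Function.update_of_ne hja]
        exact ih' i hi j hj hadj

theorem ImS_irr (H : SimpleGraph V) (l : List V) (P Q : (V → Fin d → ℝ) → Prop) (hP : PC P)
    (hQ : PC Q) (h1 : ∃ w ∈ ImS H l, P w) (h2 : ∃ w ∈ ImS H l, Q w) :
    ∃ w ∈ ImS H l, P w ∧ Q w := by
  obtain ⟨p, hp⟩ := hP
  obtain ⟨q, hq⟩ := hQ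
  obtain ⟨_, ⟨x1, rfl⟩, hx1⟩ := h1
  obtain ⟨_, ⟨x2, rfl⟩, hx2⟩ := h2
  set g : V × Fin d → MvPolynomial (V × Fin d) ℝ :=
    fun c => Phi H l (fun k a => MvPolynomial.X (k, a)) c.1 c.2 with hg
  have hev : ∀ (x : V × Fin d → ℝ) (r : MvPolynomial (V × Fin d) ℝ),
      MvPolynomial.eval x (MvPolynomial.bind₁ g r) =
        MvPolynomial.eval (fun c => Phi H l (fun k a => x (k, a)) c.1 c.2) r := by
    intro x r
    have e1 : ∀ c : V × Fin d, MvPolynomial.eval x (g c) = Phi H l (fun k a => x (k, a)) c.1 c.2 := by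
      intro c
      have := Phi_map H (MvPolynomial.eval x) l (fun k a => (MvPolynomial.X (k, a) :
        MvPolynomial (V × Fin d) ℝ))
      have h2 := congrFun (congrFun this c.1) c.2
      simpa using h2
    rw [← MvPolynomial.coe_aeval_eq_eval, ← MvPolynomial.coe_aeval_eq_eval]
    simp only [RingHom.coe_coe]
    rw [MvPolynomial.aeval_bind₁]
    have e2 : (fun c => (MvPolynomial.aeval x) (g c)) =
        fun c : V × Fin d => Phi H l (fun k a => x (k, a)) c.1 c.2 := by
      funext c
      rw [← e1 c, ← MvPolynomial.coe_aeval_eq_eval]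
      rfl
    rw [e2]
  have hp0 : MvPolynomial.bind₁ g p ≠ 0 := by
    intro h0
    apply (hp _).mp hx1
    have := hev (fun c => x1 c.1 c.2) p
    rw [h0, map_zero] at this
    exact this.symm
  have hq0 : MvPolynomial.bind₁ g q ≠ 0 := by
    intro h0
    apply (hq _).mp hx2
    have := hev (fun c => x2 c.1 c.2) q
    rw [h0, map_zero] at this
    exact this.symm
  obtain ⟨x, hx⟩ : ∃ x : V × Fin d → ℝ, MvPolynomial.eval x
      (MvPolynomial.bind₁ g p * MvPolynomial.bind₁ g q) ≠ 0 := by
    by_contra hcon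
    push Not at hcon
    apply mul_ne_zero hp0 hq0
    apply MvPolynomial.funext
    intro x
    rw [hcon x, map_zero]
  rw [map_mul, mul_ne_zero_iff, hev, hev] at hx
  exact ⟨_, ⟨fun k a => x (k, a), rfl⟩, (hp _).mpr hx.1, (hq _).mpr hx.2⟩

end IMx

open IMx in
theorem t_IM : J_IM := by
  classical
  intro V H d
  refine ⟨ImS H, ?_⟩
  have hval : ∀ (l : List V) (x w : V → Fin d → ℝ) (i : V), i ∉ l → Phi H l x = w → x i = w i := by
    intro l x w i hi h
    rw [← h, Phi_out H l x i hi]
  constructor
  · intro w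
    exact ⟨w, rfl⟩
  · intro l w w' hw h
    exact ImS_congr H l w w' hw h
  · intro i l w hi hw
    obtain ⟨x, rfl⟩ := hw
    refine ImS_congr H l (Phi H l x) _ ⟨x, rfl⟩ fun j hj => ?_
    have hji : j ≠ i := fun h => hi (h ▸ hj)
    rw [Phi, Function.update_of_ne hji]
  · intro i l w hi hw hLI horth
    have hdet := det_ne w _ hLI
    set D := (gram w (nbl H l i)).det with hD
    have hw2 : Function.update w i (D⁻¹ • w i) ∈ ImS H l := by
      refine ImS_congr H l w _ hw fun j hj => ?_
      have hji : j ≠ i := fun h => hi (h ▸ hj)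
      rw [Function.update_of_ne hji]
    obtain ⟨x, hx⟩ := hw2
    have hxi : x i = D⁻¹ • w i := by
      rw [hval l x _ i hi hx, Function.update_self]
    refine ⟨x, ?_⟩
    rw [Phi, hx, Function.update_idem]
    have hne : ∀ s ∈ nbl H l i, s ≠ i := fun s hs h => hi (h ▸ (mem_nbl.mp hs).1)
    have e1 : proj (nbl H l i) (Function.update w i (D⁻¹ • w i)) (x i) =
        proj (nbl H l i) w (D⁻¹ • w i) :=
      proj_congr (fun s hs => Function.update_of_ne (hne s hs) _ _) hxi
    rw [e1, proj_of_orth, ← hD, smul_smul, mul_inv_cancel₀ hdet, one_smul, Function.update_eq_self]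
    intro j hj
    obtain ⟨hj1, hj2⟩ := mem_nbl.mp hj
    rw [dotProduct_smul, dotProduct_comm, horth j hj1 hj2, smul_zero]
  · intro i l w hi hw h0
    obtain ⟨x, hx⟩ := hw
    have hxi : x i = 0 := by rw [hval l x w i hi hx, h0]
    refine ⟨x, ?_⟩
    rw [Phi, hx, hxi]
    have : proj (nbl H l i) w 0 = 0 := by
      rw [proj_of_orth _ _ _ (fun j _ => dotProduct_zero _), smul_zero]
    rw [this, ← h0, Function.update_eq_self]
  · intro l w hl hw
    obtain ⟨x, rfl⟩ := hw
    exact ImS_orth H l x hl
  · intro l P Q hP hQ h1 h2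
    exact ImS_irr H l P Q hP hQ h1 h2

end Pool.Agent.Run7.h207.GC
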