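import Mathlib
import Pool.Agent.Y404.GccSap
import Pool.Agent.H162R2.AG.G0
import Pool.Agent.H162R2.AG.P1

set_option autoImplicit false

/-!
# The graph complement conjecture for almost all graphs: interface

Target: for every `C`, almost all graphs `G` on `n` vertices satisfy
`ν(G) + ν(Gᶜ) ≥ n + C √n` (hence the graph complement conjecture, its positive semidefinite
version and its version for `ν`). `H` is the graph of the pairs that have to be orthogonal.

Every piece is a closed `Prop` `J_XXX`; a piece file proves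
`theorem t_XXX : (the listed hypotheses) → J_XXX`.

Lists describe orderings; the HEAD of a list is the vertex placed LAST.
-/

namespace Pool.Agent.Run7.h207.GC

open Finset Matrix

/-! ## Definitions, algebraic part -/

section defs

variable {V : Type}

open Classical in
/-- the neighbours of `i` in `D` -/
noncomputable def nbr (H : SimpleGraph V) (D : Finset V) (i : V) : Finset V :=
  D.filter fun j => H.Adj i j

open Classical in
/-- the number of the neighbours of `i` in `D` with property `P` -/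
noncomputable def dgP (H : SimpleGraph V) (D : Finset V) (i : V) (P : V → Prop) : ℕ :=
  (D.filter fun j => H.Adj i j ∧ P j).card

open Classical in
/-- the neighbours of `i` in the list `l` -/
noncomputable def nbl (H : SimpleGraph V) (l : List V) (i : V) : Finset V :=
  l.toFinset.filter fun j => H.Adj i j

theorem mem_nbr {H : SimpleGraph V} {D : Finset V} {i j : V} :
    j ∈ nbr H D i ↔ j ∈ D ∧ H.Adj i j := by
  simp [nbr]

theorem mem_nbl {H : SimpleGraph V} {l : List V} {i j : V} :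
    j ∈ nbl H l i ↔ j ∈ l ∧ H.Adj i j := by
  simp [nbl]

/-- the vectors of `S` are linearly independent -/
def LI {d : ℕ} (w : V → Fin d → ℝ) (S : Finset V) : Prop := LinearIndepOn ℝ w (S : Set V)

/-- adjacent members of `l` have orthogonal vectors -/
def Orth (H : SimpleGraph V) {d : ℕ} (w : V → Fin d → ℝ) (l : List V) : Prop :=
  ∀ i ∈ l, ∀ j ∈ l, H.Adj i j → w i ⬝ᵥ w j = 0

/-- for every member of `l` the vectors of its earlier neighbours are independent (the head of the
list is the last vertex) -/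
def LIC (H : SimpleGraph V) {d : ℕ} (w : V → Fin d → ℝ) : List V → Prop
  | [] => True
  | i :: l => LIC H w l ∧ LI w (nbl H l i)

/-- regular orthogonal representations along the list `l` -/
def Reg (H : SimpleGraph V) {d : ℕ} (w : V → Fin d → ℝ) (l : List V) : Prop :=
  Orth H w l ∧ LIC H w l

/-- no repetitions, and every member has at most `d - 1` earlier neighbours -/
def Adm (H : SimpleGraph V) (d : ℕ) : List V → Prop
  | [] => True
  | i :: l => i ∉ l ∧ (nbl H l i).card + 1 ≤ d ∧ Adm H d l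

/-- two orderings have a common regular orthogonal representation -/
def Com (H : SimpleGraph V) (d : ℕ) (l l' : List V) : Prop :=
  ∃ w : V → Fin d → ℝ, Reg H w l ∧ Reg H w l'

/-- `P` is the nonvanishing of a polynomial in the coordinates -/
def PC {d : ℕ} (P : (V → Fin d → ℝ) → Prop) : Prop :=
  ∃ p : MvPolynomial (V × Fin d) ℝ, ∀ w, (P w ↔ MvPolynomial.eval (fun q => w q.1 q.2) p ≠ 0)

/-- for every ordering of a subset of `D` and every `S` of at most `d` of its vertices there is a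
regular orthogonal representation in dimension `d` in which the vectors of `S` are independent -/
def Gen (H : SimpleGraph V) (d : ℕ) (D : Finset V) : Prop :=
  ∀ l : List V, l.Nodup → (∀ i ∈ l, i ∈ D) → ∀ S : Finset V, (∀ i ∈ S, i ∈ l) → S.card ≤ d →
    ∃ w : V → Fin d → ℝ, Reg H w l ∧ LI w S

/-- `Im l` is the image of the sequential construction along `l`: the vectors `w i`, `i ∉ l`, are
free, and `w i` for `i ∈ l` is a scaled projection of a free vector to the orthogonal complement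
of the vectors of the earlier neighbours of `i`. -/
structure IsIm (H : SimpleGraph V) (d : ℕ) (Im : List V → Set (V → Fin d → ℝ)) : Prop where
  nil : ∀ w, w ∈ Im []
  congr : ∀ l w w', w ∈ Im l → (∀ j ∈ l, w' j = w j) → w' ∈ Im l
  tail : ∀ i l w, i ∉ l → w ∈ Im (i :: l) → w ∈ Im l
  step : ∀ i l w, i ∉ l → w ∈ Im l → LI w (nbl H l i) →
    (∀ j ∈ l, H.Adj i j → w i ⬝ᵥ w j = 0) → w ∈ Im (i :: l)
  zero : ∀ i l w, i ∉ l → w ∈ Im l → w i = 0 → w ∈ Im (i :: l)
  orth : ∀ l w, l.Nodup → w ∈ Im l → Orth H w l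
  irr : ∀ l (P Q : (V → Fin d → ℝ) → Prop), PC P → PC Q → (∃ w ∈ Im l, P w) →
    (∃ w ∈ Im l, Q w) → ∃ w ∈ Im l, P w ∧ Q w

end defs

/-! ## Pieces, algebraic part -/

/-- PROOF. Define `Φ_l : (V → Fin d → ℝ) → (V → Fin d → ℝ)` by `Φ_[] x = x` and
`Φ_{i :: l} x = update (Φ_l x) i (proj S (Φ_l x) (x i))`, `S = nbl H l i`, where
`proj S v y = det(G) • y - ∑_{s : S} (adj(G) *ᵥ (fun t : S => v t ⬝ᵥ y)) s • v s`,
`G = (v s ⬝ᵥ v t)_{s, t : S}` (see `Pool.Agent.Helper861.DeltaA`: `proj_orth`, `proj_of_orth`; the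
same over `ℕ`). `Im l = range Φ_l`.
`nil`: clear. By induction on `l`: if `x, x'` agree on `l` then `Φ_l x, Φ_l x'` agree on `l`, and
`Φ_l x i = x i` for `i ∉ l`; this gives `congr` (change the parameters outside `l`) and `tail`
(`w = Φ_{i::l} x` agrees with `Φ_l x` on `l`). `step`: by `congr`, `update w i (det⁻¹ • w i)` is
`Φ_l x` for some `x` with `x i = det⁻¹ • w i` (`det ≠ 0` by `LI`), and `proj` multiplies vectors
orthogonal to `S` by `det`; so `Φ_{i::l} x = w`. `zero`: parameter `x i = 0`. `orth`: `proj_orth`.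
`irr`: there are polynomials `g (i, a)` with `Φ_l x i a = eval x (g (i, a))` (induction on `l`), so
`P (Φ_l x)` is the nonvanishing of `aeval g p` at `x`; both polynomials are nonzero, so is the
product, and `MvPolynomial.funext` gives a point at which it does not vanish. -/
def J_IM : Prop := ∀ (V : Type) (H : SimpleGraph V) (d : ℕ),
  ∃ Im : List V → Set (V → Fin d → ℝ), IsIm H d Im

/-- PROOF. `LI w S` iff the determinant of the real Gram matrix `(w s ⬝ᵥ w t)_{s, t : S}` is not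
zero; it is a polynomial in the coordinates. `LIC H w l` is a finite conjunction of such
conditions; the conjunction of two `PC` conditions is `PC` (product of the polynomials). -/
def J_PC : Prop := ∀ (V : Type) (d : ℕ),
  (∀ S : Finset V, PC (fun w : V → Fin d → ℝ => LI w S)) ∧
  (∀ (H : SimpleGraph V) (l : List V), PC (fun w : V → Fin d → ℝ => LIC H w l)) ∧
  (∀ P Q : (V → Fin d → ℝ) → Prop, PC P → PC Q → PC (fun w => P w ∧ Q w)) ∧
  (∀ i j : V, PC (fun w : V → Fin d → ℝ => w i ⬝ᵥ w j ≠ 0)) ∧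
  PC (fun _ : V → Fin d → ℝ => True)

/-- transitivity. PROOF (`J_IM`, `J_PC`). A regular `w` along a list without repetitions lies in
`Im` of the list (induction with `step`; note that `LIC`, `Orth` of `i :: l` give those of `l`).
In `Im l₂` the conditions `LIC l₂ ∧ LIC l₁` and `LIC l₂ ∧ LIC l₃` have witnesses, hence a common
one by `irr`; `Orth` holds on the common set of vertices by `orth`. -/
def J_TRANS : Prop := ∀ (V : Type) (H : SimpleGraph V) (d : ℕ) (l₁ l₂ l₃ : List V),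
  l₁.Nodup → l₁.Perm l₂ → l₂.Perm l₃ → Com H d l₁ l₂ → Com H d l₂ l₃ → Com H d l₁ l₃

/-- PROOF (`J_IM`, `J_PC`). In `Im (i :: l)`: the condition `LIC (i :: l)` has a witness by
hypothesis; the condition `LIC l'` has the witness `update w i 0` where `w` is the common
representation of `l` and `l'` (`w ∈ Im l`, then `zero`; `LIC l'` only depends on the vectors of
`l'`, and `i ∉ l'`). Take a common one by `irr`. `nbl H l' i = nbl H l i`. -/
def J_SUF : Prop := ∀ (V : Type) (H : SimpleGraph V) (d : ℕ) (i : V) (l l' : List V),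
  l.Nodup → i ∉ l → l.Perm l' → Com H d l l' → (∃ w : V → Fin d → ℝ, Reg H w (i :: l)) →
    Com H d (i :: l) (i :: l')

/-- PROOF. `update w i 0`. (The sets `nbl` of the members of `l` and `nbl H l i` do not contain
`i`.) -/
def J_EXT : Prop := ∀ (V : Type) (H : SimpleGraph V) (d : ℕ) (i : V) (l : List V),
  i ∉ l → (∃ w : V → Fin d → ℝ, Reg H w l ∧ LI w (nbl H l i)) →
    ∃ w : V → Fin d → ℝ, Reg H w (i :: l)

/-- swap of nonadjacent vertices. PROOF (`J_IM`, `J_PC`). In `Im l` the conditions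
`LIC l ∧ LI (nbl l x)` and `LIC l ∧ LI (nbl l y)` have witnesses, take a common one `w` and replace
`w x`, `w y` by `0`. As `x`, `y` are not adjacent, `nbl (x :: l) y = nbl l y` and
`nbl (y :: l) x = nbl l x`. -/
def J_SWN : Prop := ∀ (V : Type) (H : SimpleGraph V) (d : ℕ) (x y : V) (l : List V),
  x ≠ y → ¬ H.Adj x y → x ∉ l → y ∉ l → l.Nodup →
  (∃ w : V → Fin d → ℝ, Reg H w l ∧ LI w (nbl H l x)) →
  (∃ w : V → Fin d → ℝ, Reg H w l ∧ LI w (nbl H l y)) →
    Com H d (y :: x :: l) (x :: y :: l)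

/-- swap of adjacent vertices: THE KEY STEP. PROOF (`J_IM`, `J_PC`). Put `A = nbl H l x`,
`B = nbl H l y`, `l' = r ++ u`; by hypothesis `A = nbl H u x`, `B = nbl H u y`. In dimension
`d - 2`, by `irr` in `Im u`, there is a `w'` with `Reg H w' u`, `LI w' A`, `LI w' B`. Append two
zero coordinates: `w₁ : V → Fin d → ℝ` with the same properties and all vectors orthogonal to the
last two basis vectors `f₁, f₂`. `w₁ ∈ Im u` (induction with `step`). Replace the vectors of `r` by
`0`: in `Im (r ++ u)` by `zero`. Put `w x = f₁` and then `w y = f₂`: by `step` in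
`Im (x :: l')` and in `Im (y :: x :: l')`; for the second one `nbl H (x :: l') y = insert x B` and
`f₁, B` are independent. So in `Im (y :: x :: l')` the condition
(i) `LI A ∧ LI B ∧ LI (insert x B) ∧ LI (insert y A)` has a witness. The condition
(ii) `LIC l' ∧ LIC l` has a witness too: a common regular representation of `l` and `l'`, with
`w x = w y = 0` (`zero`). Take a common one `w`; by `orth` adjacent vectors of `x, y, l` are
orthogonal, and `w` is regular along `y :: x :: l` and along `x :: y :: l`. -/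
def J_SWA : Prop := ∀ (V : Type) (H : SimpleGraph V) (d : ℕ) (x y : V) (l r u : List V),
  H.Adj x y → l.Nodup → x ∉ l → y ∉ l → l.Perm (r ++ u) → Com H d l (r ++ u) →
  (∀ j ∈ r, ¬ H.Adj x j ∧ ¬ H.Adj y j) →
  (nbl H l x).card + 2 ≤ d → (nbl H l y).card + 2 ≤ d →
  (∃ w : V → Fin (d - 2) → ℝ, Reg H w u ∧ LI w (nbl H u x)) →
  (∃ w : V → Fin (d - 2) → ℝ, Reg H w u ∧ LI w (nbl H u y)) →
    Com H d (y :: x :: l) (x :: y :: l)

/-- PROOF (`J_IM`, `J_PC`). In `Im (m ++ s)`: the condition `LI s.toFinset` has a witness, namely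
distinct standard basis vectors on `s` (regular along `s`, so in `Im s`) and `0` on `m` (`zero`);
the condition `LIC (m ++ s) ∧ LIC l` has a witness by `Com`. Take a common one. -/
def J_SFIRST : Prop := ∀ (V : Type) (H : SimpleGraph V) (d : ℕ) (l m s : List V),
  l.Nodup → l.Perm (m ++ s) → Com H d l (m ++ s) → s.length ≤ d →
    ∃ w : V → Fin d → ℝ, Reg H w l ∧ LinearIndepOn ℝ w {i | i ∈ s}

/-- reordering, pure combinatorics of lists. PROOF. `c` consists of vertices with at most `d - 1`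
neighbours in `D`, the vertices of `q` have at most `d - 1` neighbours in `Q`; hence every list
`c' ++ q'` with `c'` of the first and `q'` of the second kind (no repetitions, in `D`) is
admissible.
(1) `q₁ ~ q₂` of the second kind: `R q₁ q₂` by induction on `Perm` (cons, swap, trans).
(2) `R (c ++ q₁) (c ++ q₂)` by induction on `c` (cons).
(3) `c₁ ~ c₂`: `R (c₁ ++ q) (c₂ ++ q)` by induction on `Perm`.
(4) `i :: (c ++ q)` admissible, `Q i`: `R (i :: (c ++ q)) (c ++ i :: q)` by induction on `c`: swap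
`i` with the head of `c`, then cons.
(5) induction on `l`: `R l (c ++ q)` for the sublists `c`, `q` of the vertices outside `Q` and in
`Q`; for `i :: l₁` use cons, if `Q i` also (4). Then (2), (3). -/
def J_RO : Prop := ∀ (V : Type) (H : SimpleGraph V) (d n : ℕ) (D : Finset V)
  (R : List V → List V → Prop),
  (∀ l, Adm H d l → (∀ j ∈ l, j ∈ D) → l.length ≤ n → R l l) →
  (∀ l₁ l₂ l₃, Adm H d l₁ → Adm H d l₂ → Adm H d l₃ → l₁.Perm l₂ → l₂.Perm l₃ →
    (∀ j ∈ l₁, j ∈ D) → l₁.length ≤ n → R l₁ l₂ → R l₂ l₃ → R l₁ l₃) →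
  (∀ i l l', Adm H d (i :: l) → Adm H d (i :: l') → l.Perm l' → (∀ j ∈ i :: l, j ∈ D) →
    (i :: l).length ≤ n → R l l' → R (i :: l) (i :: l')) →
  (∀ x y l, Adm H d (y :: x :: l) → Adm H d (x :: y :: l) → (∀ j ∈ y :: x :: l, j ∈ D) →
    (y :: x :: l).length ≤ n → R (y :: x :: l) (x :: y :: l)) →
  ∀ (l c q : List V) (Q : V → Prop), Adm H d l → (∀ j ∈ l, j ∈ D) → l.length ≤ n →
    l.Perm (c ++ q) → (∀ i ∈ c, ¬ Q i) → (∀ i ∈ q, Q i) →
    (∀ i ∈ c, (nbr H D i).card + 1 ≤ d) → (∀ i ∈ q, dgP H D i Q + 1 ≤ d) → R l (c ++ q)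

/-- the vertex sets in dimension `d - 2` which are needed for dimension `d` -/
def HG {V : Type} (H : SimpleGraph V) (d : ℕ) (D : Finset V) : Prop :=
  ∀ x ∈ D, ∀ y ∈ D, H.Adj x y → ∀ U : Finset V, (∀ u ∈ U, u ∈ D ∧ u ≠ x ∧ u ≠ y ∧
    (H.Adj x u ∨ H.Adj y u)) → Gen H (d - 2) U

/-- the degree condition for dimension `d` -/
def HQ {V : Type} (H : SimpleGraph V) (d : ℕ) (D : Finset V) : Prop :=
  ∀ x ∈ D, ∀ y ∈ D, ∀ i ∈ D, i ≠ x → i ≠ y → (nbr H D i).card + 1 ≤ d ∨
    dgP H D i (fun j => H.Adj x j ∨ H.Adj y j ∨ d ≤ (nbr H D j).card) + 2 ≤ d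

/-- the main induction. PROOF (`J_TRANS`, `J_SUF`, `J_EXT`, `J_SWN`, `J_SWA`, `J_SFIRST`, `J_RO`).
All lists are admissible and consist of vertices of `D`. Call `j` big if
`d ≤ (nbr H D j).card`. By strong induction on `n` prove, for lists `l` of length `n`:
`EX n`: there is a regular `w`. (`l = i :: l₁`: `ES (n-1)` for `S = nbl H l₁ i`, then `J_EXT`. The
condition of `ES` for `q ∈ l₁`: `HQ` with `x = y = i`.)
`RO n`: for every `Q` as in `J_RO`: `Com H d l (c ++ q)`. (`J_RO` with `R = Com H d` and this `n`: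
reflexivity `EX (≤ n)`, transitivity `J_TRANS`, cons `J_SUF` and `EX (≤ n)`, swap `SW (≤ n-2)`.)
`ES n` = the statement: with `Q j = (j ∈ S ∨ j big)`; a vertex outside `Q` is not big, a vertex `i`
in `Q` has `dgP H D i Q + 1 ≤ d` by the hypothesis. `l ~ m ++ s`, `m` = (vertices outside `Q`) ++
(vertices of `Q` outside `S`), `s` = the vertices of `S`; `RO n` and `J_SFIRST`.
`SW n`: `Com H d (y :: x :: l) (x :: y :: l)` if both lists are admissible (so `x ≠ y`, not in
`l`) and in `D`. If `x, y` are not adjacent: `J_SWN` with `ES n` for `nbl H l x` and `nbl H l y`.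
If they are adjacent: `(nbl H l x).card + 2 ≤ d` since `nbl H (y :: l) x` has one more element;
same for `y`. `Q j = (H.Adj x j ∨ H.Adj y j ∨ j big)`, conditions by `HQ` (a vertex of `l` is
different from `x`, `y`); `RO n` for `r ++ u`, `u` = the vertices of `l` adjacent to `x` or `y`,
`r` = (vertices of `l` outside `Q`) ++ (vertices of `l` in `Q` not adjacent to `x` or `y`); `HG`
for `U = u.toFinset` gives the two representations in dimension `d - 2`; `J_SWA`. -/
def J_STEP : Prop := ∀ (V : Type) (H : SimpleGraph V) (d : ℕ) (D : Finset V),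
  HG H d D → HQ H d D →
  ∀ l : List V, Adm H d l → (∀ i ∈ l, i ∈ D) → ∀ S : Finset V, (∀ i ∈ S, i ∈ l) → S.card ≤ d →
    (∀ i ∈ l, (nbr H D i).card + 1 ≤ d ∨
      dgP H D i (fun j => j ∈ S ∨ d ≤ (nbr H D j).card) + 1 ≤ d) →
    ∃ w : V → Fin d → ℝ, Reg H w l ∧ LI w S

/-- PROOF (`J_STEP`). If all degrees in `D` are at most `d - 1`, then `HQ` holds, all lists without
repetitions in `D` are admissible, and the conditions of `J_STEP` hold. -/
def J_GEN : Prop := ∀ (V : Type) (H : SimpleGraph V) (d : ℕ) (D : Finset V),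
  (∀ i ∈ D, (nbr H D i).card + 1 ≤ d) → HG H d D → Gen H d D

/-- PROOF. Distinct standard basis vectors for the vertices of `D`. -/
def J_BASE : Prop := ∀ (V : Type) (H : SimpleGraph V) (d : ℕ) (D : Finset V),
  D.card ≤ d → Gen H d D

/-- PROOF (`J_IM`, `J_PC`, `J_STEP`). Let `l` consist of the vertices that are not big, followed by
the big ones (so the big ones are placed first). It is admissible: a big vertex `i` has at most
`d - 2` big neighbours by `HQ` (with `x = y` any other vertex), the others have at most `d - 1`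
neighbours. For `i ≠ j` not adjacent, say `l = m ++ k :: l₁`, `j' ∈ l₁`, `{k, j'} = {i, j}`:
`J_STEP` for `l₁` and `S = insert j' (nbl H l₁ k)` (condition for `q ∈ l₁`: `HQ` with `x = y = k`,
the vertex `j'` adds at most one) gives `w ∈ Im l₁` with `LI w S`; so `w j'` is not in the span of
the `w t`, `t ∈ nbl H l₁ k`, and there is a vector `z` orthogonal to these with
`z ⬝ᵥ w j' ≠ 0`. Put `w k = z` (`step`) and `w = 0` on `m` (`zero`). So in `Im l` each of the
finitely many conditions `w i ⬝ᵥ w j ≠ 0` has a witness, and `LIC H w l` has one (`J_STEP` with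
`S = ∅`); take a common one. -/
def J_FTH : Prop := ∀ (V : Type) [Fintype V] (H : SimpleGraph V) (d : ℕ), 1 ≤ d →
  2 ≤ Fintype.card V → HG H d univ → HQ H d univ →
  ∃ (l : List V) (w : V → Fin d → ℝ), l.Nodup ∧ (∀ i, i ∈ l) ∧ Reg H w l ∧
    ∀ i j, i ≠ j → ¬ H.Adj i j → w i ⬝ᵥ w j ≠ 0

/-- PROOF. `A i j = w i ⬝ᵥ w j` is `W * Wᵀ`, positive semidefinite of rank at most `d`, and its
off-diagonal pattern is `Hᶜ`. Strong Arnold Property: let `X` be symmetric, supported on the edges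
of `H`, `A * X = 0`. Then `∑ j, X i j • w j = 0` for all `i` (`W Wᵀ X = 0` implies `Wᵀ X = 0`
over the reals). Going through the list from the head: if all rows (and columns) of the vertices
before the current tail are zero, then the row of the head `i` of the tail `i :: l₁` is supported
on `nbl H l₁ i`, whose vectors are independent, so the row is zero, and so is the column. -/
def J_SAP : Prop := ∀ (V : Type) [Fintype V] [DecidableEq V] (H : SimpleGraph V) (d : ℕ)
  (l : List V) (w : V → Fin d → ℝ), l.Nodup → (∀ i, i ∈ l) → Reg H w l →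
  (∀ i j, i ≠ j → ¬ H.Adj i j → w i ⬝ᵥ w j ≠ 0) → Pool.Agent.Y404.GccSap.HasSap Hᶜ d

/-! ## Probabilistic part -/

open Pool.Agent.H162R2.AG Pool.Agent.H162R2.Sparse

/-- first condition: every vertex of large degree has many neighbours of small degree outside the
neighbourhoods of any two other vertices -/
def R1 (n d : ℕ) (H : SimpleGraph (Fin n)) : Prop := ∀ x y i : Fin n, i ≠ x → i ≠ y →
  (nbr H univ i).card + 1 ≤ d ∨
    dgP H univ i (fun j => H.Adj x j ∨ H.Adj y j ∨ d ≤ (nbr H univ j).card) + 2 ≤ d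

/-- second condition -/
def R2 (n d : ℕ) (H : SimpleGraph (Fin n)) : Prop := ∀ x y i : Fin n, i ≠ x → i ≠ y → x ≠ y →
  dgP H univ i (fun j => H.Adj x j ∨ H.Adj y j) + 5 ≤ d

open Classical in
/-- third condition -/
def R3 (n d : ℕ) (H : SimpleGraph (Fin n)) : Prop := ∀ c : Fin 6 → Fin n, Function.Injective c →
  (univ.filter fun j => (H.Adj (c 0) j ∨ H.Adj (c 1) j) ∧ (H.Adj (c 2) j ∨ H.Adj (c 3) j) ∧
    (H.Adj (c 4) j ∨ H.Adj (c 5) j)).card + 6 ≤ d

/-- deterministic theorem. PROOF (`J_GEN`, `J_BASE`, `J_FTH`, `J_SAP`). `HQ H d univ` is `R1`.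
`HG H d univ`: for adjacent `x, y` and `U` as in `HG` apply `J_GEN` in dimension `d - 2` (degrees in
`U`: `R2`), its hypothesis `HG H (d - 2) U`: for adjacent `x', y' ∈ U` and `U' ⊆ U` as in `HG`
apply `J_GEN` in dimension `d - 2 - 2` (degrees: `R2`), its hypothesis: for adjacent
`x'', y'' ∈ U'` and `U''` apply `J_BASE` in dimension `d - 2 - 2 - 2`: `U''` has at most `d - 6`
elements by `R3` (`x', y'` are different from `x, y` by the conditions on `U`, etc.). `1 ≤ d` by
`R1`. -/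
def J_DET : Prop := ∀ (n d : ℕ) (H : SimpleGraph (Fin n)), 2 ≤ n → R1 n d H → R2 n d H →
  R3 n d H → Pool.Agent.Y404.GccSap.HasSap Hᶜ d

/-- PROOF. With `Pool.Agent.H162R2.AG.G0equiv` (for the set `A = Cᶜ`; the neighbourhoods outside
`A`, that is in `C`, of the vertices `b ∉ C` are independent and uniform):
`∑_H (5/4)^X(H) = #graphs · ∏_{b ∉ C} (1 + (1/4) p)`, `p = #{s ⊆ C | P s} / 2^|C| ≤ 27/64`, so this
is at most `#graphs · (283/256)^n`. By Markov the count is at most
`#graphs · (283/256)^n (4/5)^(49 n / 100)`, and `(283/256)^100 ≤ (5/4)^48`. -/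
def J_TAIL : Prop := ∀ (n : ℕ) (C : Finset (Fin n)) (P : Finset (Fin n) → Prop),
  64 * cnt (fun s : {s : Finset (Fin n) // s ⊆ C} => P s.1) ≤ 27 * 2 ^ C.card →
  cnt (fun H : SimpleGraph (Fin n) => 49 / 100 * (n : ℝ) ≤
    cnt (fun b : Fin n => b ∉ C ∧ P (nb H b ∩ C))) ≤
  (4 / 5 : ℝ) ^ ((n : ℝ) / 100) * Fintype.card (SimpleGraph (Fin n))

/-- PROOF (`J_TAIL`). Union bound over `x, y, i` (at most `n ^ 3`), `C = {x, y, i}`,
`P s = (i ∈ s ∧ (x ∈ s ∨ y ∈ s))`: 3 of 8 subsets. -/
def J_R2 : Prop := ∀ C δ : ℝ, 0 < δ → ∃ n₀ : ℕ, ∀ n : ℕ, n₀ ≤ n → ∀ d : ℕ,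
  (n : ℝ) / 2 - C * √n ≤ d →
  cnt (fun H : SimpleGraph (Fin n) => ¬ R2 n d H) ≤ δ * Fintype.card (SimpleGraph (Fin n))

/-- PROOF (`J_TAIL`). Union bound over the at most `n ^ 6` injective `c`, `C = range c`: 27 of 64
subsets. -/
def J_R3 : Prop := ∀ C δ : ℝ, 0 < δ → ∃ n₀ : ℕ, ∀ n : ℕ, n₀ ≤ n → ∀ d : ℕ,
  (n : ℝ) / 2 - C * √n ≤ d →
  cnt (fun H : SimpleGraph (Fin n) => ¬ R3 n d H) ≤ δ * Fintype.card (SimpleGraph (Fin n))

/-- PROOF. Central limit theorem, or: `N choose k ≥ ε' 2^N / √N` for `|k - N/2| ≤ (C + 1) √N`, and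
there are about `√N` such `k` with `k ≤ N/2 - C √N`. For `|k - N/2| ≤ (C+1)√N` the quotient of
consecutive binomial coefficients `(N choose k) / (N choose (k+1)) = (k+1)/(N-k)` is at least
`1 - c/√N`, and there are at most `(C+1)√N + 1` of them between `k` and the middle. -/
def J_BIN : Prop := ∀ C : ℝ, ∃ ε : ℝ, 0 < ε ∧ ∃ N₀ : ℕ, ∀ N : ℕ, N₀ ≤ N →
  ε * 2 ^ N ≤ cnt (fun s : Finset (Fin N) => (s.card : ℝ) ≤ N / 2 - C * √N)

/-- PROOF (`J_BIN`). The subsets are `insert i s'`, `s' ⊆ Aᶜ \ {i, x, y}`, `s'.card ≤ T - 1`;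
`ε = ε' / 8`. -/
def J_SUCC : Prop := ∀ C : ℝ, ∃ ε : ℝ, 0 < ε ∧ ∃ N₀ : ℕ, ∀ (n : ℕ) (A : Finset (Fin n))
  (i x y : Fin n) (T : ℝ), i ∉ A → x ∉ A → y ∉ A → i ≠ x → i ≠ y → N₀ ≤ (Aᶜ).card →
  ((Aᶜ).card : ℝ) / 2 - C * √(Aᶜ).card ≤ T →
  ε * 2 ^ (Aᶜ).card ≤ cnt (fun s : Finset (Fin n) => s ⊆ Aᶜ ∧ i ∈ s ∧ x ∉ s ∧ y ∉ s ∧
    (s.card : ℝ) ≤ T)

/-- PROOF (`Pool.Agent.H162R2.AG.G0 : T_G0`). Divide `A` into `K` blocks of `b` vertices. If there
are less than `K` successes then some block has no success; for one block `B` the count of the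
graphs without success in `B` is, by `T_G0` with `P v s = (v ∈ B → ¬ success s)`, at most
`(1 - ε)^b · #graphs`. (`i ∉ A` and `i ∈ nb H v \ A` iff `H.Adj v i`.) -/
def J_BLOCK : Prop := ∀ (n K b : ℕ) (A : Finset (Fin n)) (i x y : Fin n) (T ε : ℝ), i ∉ A →
  x ∉ A → y ∉ A → A.card = K * b → 0 ≤ ε → ε ≤ 1 →
  ε * 2 ^ (Aᶜ).card ≤ cnt (fun s : Finset (Fin n) => s ⊆ Aᶜ ∧ i ∈ s ∧ x ∉ s ∧ y ∉ s ∧
    (s.card : ℝ) ≤ T) →
  cnt (fun H : SimpleGraph (Fin n) =>
    cnt (fun v : Fin n => v ∈ A ∧ H.Adj v i ∧ ¬ H.Adj v x ∧ ¬ H.Adj v y ∧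
      ((nb H v \ A).card : ℝ) ≤ T) < K) ≤
    K * (1 - ε) ^ b * Fintype.card (SimpleGraph (Fin n))

/-- PROOF (`T_P1`, `T_G0`; compare `ev2` in `Pool.Agent.H162R2.AG.G1`, which is the lower tail).
Union bound over `v ∈ A`; `(nb H v ∩ A).card` is binomial with `A.card - 1` trials. -/
def J_INNER : Prop := ∀ (n : ℕ) (A : Finset (Fin n)) (t : ℝ), 0 ≤ t →
  cnt (fun H : SimpleGraph (Fin n) => ∃ v ∈ A, (A.card : ℝ) / 2 + t ≤ ((nb H v ∩ A).card : ℝ)) ≤
    A.card * (2 * Real.exp (-(2 * t ^ 2 / A.card))) * Fintype.card (SimpleGraph (Fin n))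

/-- PROOF (`J_SUCC`, `J_BLOCK`, `J_INNER`). `K = ⌈n^0.52⌉`, `b = ⌈n^0.3⌉`, `t = n^0.46`. For
`i, x, y` with `i ≠ x`, `i ≠ y` let `A` be a set of `K b` vertices different from `i, x, y`, and
`T = d - 1 - A.card / 2 - t`; `(Aᶜ).card / 2 - 2 (|C| + 2) √(Aᶜ).card ≤ T` for large `n`. Outside
the exceptional graphs (union bound over `i, x, y`: `n^3 (K (1 - ε)^b + 2 K b exp(-2 t^2/(K b)))`
and `2 n exp(- 2 n^0.02)` for the degrees, the latter from `J_INNER` with `A = univ`, `t = n^0.51`)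
at least `K` vertices `v ∈ A` are adjacent to `i`, not to `x`, `y`, and have degree less than
`T + A.card / 2 + t = d - 1`, and `i` has degree less than `n / 2 + n^0.51 ≤ d + K - 2`. -/
def J_R1 : Prop := ∀ C δ : ℝ, 0 < δ → ∃ n₀ : ℕ, ∀ n : ℕ, n₀ ≤ n → ∀ d : ℕ,
  (n : ℝ) / 2 - C * √n ≤ d →
  cnt (fun H : SimpleGraph (Fin n) => ¬ R1 n d H) ≤ δ * Fintype.card (SimpleGraph (Fin n))

/-- PROOF (`J_DET`, `J_R1`, `J_R2`, `J_R3`). `d = ⌊n/2 - C √n⌋₊`; the conditions for `G` and for
`Gᶜ` (complementation is a bijection on the graphs). -/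
def J_AA : Prop := ∀ C δ : ℝ, 0 < δ → ∃ n₀ : ℕ, ∀ n : ℕ, n₀ ≤ n →
  cnt (fun G : SimpleGraph (Fin n) => ¬ ∃ d : ℕ, (d : ℝ) ≤ n / 2 - C * √n ∧
    Pool.Agent.Y404.GccSap.HasSap G d ∧ Pool.Agent.Y404.GccSap.HasSap Gᶜ d) ≤
    δ * Fintype.card (SimpleGraph (Fin n))

end Pool.Agent.Run7.h207.GC
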