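import Pool.Agent.Run7.h207.GC.Iface

/-! Piece SAP (helper344). -/

set_option autoImplicit false

namespace Pool.Agent.Run7.h207.GC

open Finset Matrix

theorem sap_ind {V : Type} [Fintype V] [DecidableEq V] (H : SimpleGraph V) {d : ℕ}
    (w : V → Fin d → ℝ) (X : Matrix V V ℝ) (hX : ∀ i j, X i j = X j i)
    (hs : ∀ i j, ¬ H.Adj i j → X i j = 0) (h0 : ∀ i, ∑ j, X i j • w j = 0) :
    ∀ l : List V, LIC H w l → (∀ i, i ∉ l → ∀ j, X i j = 0) → ∀ i j, X i j = 0 := by
  intro l
  induction l with
  | nil => intro _ h i j; exact h i (by simp) j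
  | cons i l ih =>
    intro hl h
    obtain ⟨hl1, hl2⟩ := hl
    refine ih hl1 fun k hk j => ?_
    by_cases hki : k = i
    · subst hki
      -- the row of the head
      have hz : ∀ j, j ∉ nbl H l k → X k j = 0 := by
        intro j hj
        by_cases hA : H.Adj k j
        · by_cases hjl : j ∈ l
          · exact absurd (mem_nbl.2 ⟨hjl, hA⟩) hj
          · rw [hX]
            refine h j ?_ k
            intro hm
            rcases List.mem_cons.1 hm with h1 | h1
            · exact hA.ne h1.symm
            · exact hjl h1
        · exact hs k j hA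
      have hsum : ∑ j ∈ nbl H l k, X k j • w j = 0 := by
        rw [← h0 k]
        refine Finset.sum_subset (Finset.subset_univ _) fun j _ hj => ?_
        rw [hz j hj, zero_smul]
      have hli := linearIndepOn_finset_iff.1 hl2 (fun j => X k j) hsum
      by_cases hj : j ∈ nbl H l k
      · exact hli j hj
      · exact hz j hj
    · refine h k ?_ j
      intro hm
      rcases List.mem_cons.1 hm with h1 | h1
      · exact hki h1
      · exact hk h1

theorem t_SAP : J_SAP := by
  intro V _ _ H d l w hnd hall hreg hne
  obtain ⟨horth, hlic⟩ := hreg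
  let W : Matrix V (Fin d) ℝ := Matrix.of w
  have hA : ∀ x y, (W * Wᵀ) x y = w x ⬝ᵥ w y := by
    intro x y
    simp only [Matrix.mul_apply, Matrix.transpose_apply, W, Matrix.of_apply, dotProduct]
  refine ⟨W * Wᵀ, ?_, ?_, ?_, ?_⟩
  · have := Matrix.posSemidef_self_mul_conjTranspose W
    rwa [Matrix.conjTranspose_eq_transpose_of_trivial] at this
  · intro i j hij
    rw [hA, SimpleGraph.compl_adj]
    constructor
    · intro h
      exact ⟨hij, fun hadj => h (horth i (hall i) j (hall j) hadj)⟩
    · rintro ⟨_, h⟩
      exact hne i j hij h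
  · intro X hsym hsupp hAX
    have hXs : ∀ i j, X i j = X j i := fun i j => by
      have := congrFun (congrFun hsym j) i
      simpa [Matrix.transpose_apply] using this
    have hs : ∀ i j, ¬ H.Adj i j → X i j = 0 := by
      intro i j h
      apply hsupp
      by_cases hij : i = j
      · exact Or.inl hij
      · right
        rw [SimpleGraph.compl_adj]
        exact ⟨hij, h⟩
    have hWX : Wᵀ * X = 0 := by
      have h1 : (Wᵀ * X)ᴴ * (Wᵀ * X) = 0 := by
        rw [Matrix.conjTranspose_mul, Matrix.conjTranspose_eq_transpose_of_trivial Wᵀ,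
          Matrix.transpose_transpose, Matrix.mul_assoc, ← Matrix.mul_assoc W, hAX, Matrix.mul_zero]
      exact Matrix.conjTranspose_mul_self_eq_zero.1 h1
    have h0 : ∀ i, ∑ j, X i j • w j = 0 := by
      intro i
      funext c
      have h1 := congrFun (congrFun hWX c) i
      simp only [Matrix.mul_apply, Matrix.transpose_apply, W, Matrix.of_apply,
        Matrix.zero_apply] at h1
      rw [Finset.sum_apply, Pi.zero_apply, ← h1]
      refine Finset.sum_congr rfl fun j _ => ?_
      rw [Pi.smul_apply, smul_eq_mul, hXs i j, mul_comm]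
    have := sap_ind H w X hXs hs h0 l hlic (fun i hi => absurd (hall i) hi)
    ext i j
    exact this i j
  · exact (Matrix.rank_mul_le_left W Wᵀ).trans (by simpa using Matrix.rank_le_card_width W)

end Pool.Agent.Run7.h207.GC
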