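import Pool.Agent.Run7.h207.GC.Iface

set_option autoImplicit false

namespace Pool.Agent.Run7.h207.GC

open Finset

section basic

variable {V : Type} {H : SimpleGraph V} {d : ℕ}

theorem Adm.nodup : ∀ {l : List V}, Adm H d l → l.Nodup
  | [], _ => List.nodup_nil
  | _ :: _, h => List.nodup_cons.2 ⟨h.1, Adm.nodup h.2.2⟩

theorem Adm.tail' {i : V} {l : List V} (h : Adm H d (i :: l)) : Adm H d l := h.2.2

theorem split (P : V → Prop) (l : List V) : ∃ a b : List V, l.Perm (a ++ b) ∧
    (∀ i ∈ a, ¬ P i) ∧ ∀ i ∈ b, P i := by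
  classical
  refine ⟨l.filter (fun x => !(decide (P x))), l.filter (fun x => decide (P x)), ?_, ?_, ?_⟩
  · exact (List.perm_append_comm.trans
      (List.filter_append_perm (fun x => decide (P x)) l)).symm
  · intro i hi
    have := (List.mem_filter.1 hi).2
    simpa using this
  · intro i hi
    have := (List.mem_filter.1 hi).2
    simpa using this

theorem nbl_subset {D : Finset V} {l : List V} (h : ∀ j ∈ l, j ∈ D) (i : V) :
    nbl H l i ⊆ nbr H D i := by
  intro j hj
  rw [mem_nbl] at hj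
  rw [mem_nbr]
  exact ⟨h j hj.1, hj.2⟩

theorem dgP_le (D : Finset V) (i : V) (P : V → Prop) : dgP H D i P ≤ (nbr H D i).card := by
  classical
  unfold dgP nbr
  apply Finset.card_le_card
  intro j hj
  rw [Finset.mem_filter] at hj ⊢
  exact ⟨hj.1, hj.2.1⟩

theorem dgP_mono (D : Finset V) (i : V) {P Q : V → Prop} (h : ∀ j, P j → Q j) :
    dgP H D i P ≤ dgP H D i Q := by
  classical
  unfold dgP
  apply Finset.card_le_card
  intro j hj
  rw [Finset.mem_filter] at hj ⊢
  exact ⟨hj.1, hj.2.1, h j hj.2.2⟩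

theorem nbl_congr {l l' : List V} (h : ∀ j, j ∈ l ↔ j ∈ l') (i : V) : nbl H l i = nbl H l' i := by
  ext j
  rw [mem_nbl, mem_nbl, h j]

end basic

/-- the statement `ES` for the list `l` -/
def ES {V : Type} (H : SimpleGraph V) (d : ℕ) (D : Finset V) (l : List V) : Prop :=
  Adm H d l → (∀ i ∈ l, i ∈ D) → ∀ S : Finset V, (∀ i ∈ S, i ∈ l) → S.card ≤ d →
    (∀ i ∈ l, (nbr H D i).card + 1 ≤ d ∨
      dgP H D i (fun j => j ∈ S ∨ d ≤ (nbr H D j).card) + 1 ≤ d) →
    ∃ w : V → Fin d → ℝ, Reg H w l ∧ LI w S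

/-- the statement `SW` for the list `l` -/
def SW {V : Type} (H : SimpleGraph V) (d : ℕ) (D : Finset V) (l : List V) : Prop :=
  ∀ x y, Adm H d (y :: x :: l) → Adm H d (x :: y :: l) → (∀ j ∈ y :: x :: l, j ∈ D) →
    Com H d (y :: x :: l) (x :: y :: l)

theorem es_nbl {V : Type} {H : SimpleGraph V} {d : ℕ} {D : Finset V} (hQ : HQ H d D)
    {l : List V} {i : V} (hl : Adm H d l) (hD : ∀ j ∈ l, j ∈ D) (hiD : i ∈ D) (hi : i ∉ l)
    (hc : (nbl H l i).card + 1 ≤ d) (h : ES H d D l) :
    ∃ w : V → Fin d → ℝ, Reg H w l ∧ LI w (nbl H l i) := by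
  refine h hl hD (nbl H l i) (fun j hj => (mem_nbl.1 hj).1) (by omega) ?_
  intro q hq
  have hne : q ≠ i := fun e => hi (e ▸ hq)
  rcases hQ i hiD i hiD q (hD q hq) hne hne with h1 | h1
  · exact Or.inl h1
  · right
    have := dgP_mono (H := H) D q (P := fun j => j ∈ nbl H l i ∨ d ≤ (nbr H D j).card)
      (Q := fun j => H.Adj i j ∨ H.Adj i j ∨ d ≤ (nbr H D j).card) (by
        rintro j (hj | hj)
        · exact Or.inl (mem_nbl.1 hj).2
        · exact Or.inr (Or.inr hj))
    omega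

theorem ex_of_es {V : Type} {H : SimpleGraph V} {d : ℕ} {D : Finset V} (hE : J_EXT)
    (hQ : HQ H d D) {n : ℕ} (h : ∀ l : List V, l.length < n → ES H d D l) (l : List V)
    (hn : l.length ≤ n) (hl : Adm H d l) (hD : ∀ j ∈ l, j ∈ D) :
    ∃ w : V → Fin d → ℝ, Reg H w l := by
  cases l with
  | nil => exact ⟨fun _ _ => 0, fun i hi => absurd hi (by simp), trivial⟩
  | cons i l =>
    obtain ⟨h1, h2, h3⟩ := hl
    refine hE V H d i l h1 ?_
    rw [List.length_cons] at hn
    exact es_nbl hQ h3 (fun j hj => hD j (List.mem_cons_of_mem _ hj))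
      (hD i List.mem_cons_self) h1 h2 (h l (by omega))

theorem ro_of {V : Type} {H : SimpleGraph V} {d : ℕ} {D : Finset V} (hT : J_TRANS)
    (hS : J_SUF) (hE : J_EXT) (hR : J_RO)
    (hQ : HQ H d D) {n : ℕ} (h : ∀ l : List V, l.length < n → ES H d D l)
    (hsw : ∀ l : List V, l.length < n → SW H d D l) (l c q : List V) (Q : V → Prop)
    (hl : Adm H d l) (hD : ∀ j ∈ l, j ∈ D) (hn : l.length ≤ n) (hp : l.Perm (c ++ q))
    (hc : ∀ i ∈ c, ¬ Q i) (hq : ∀ i ∈ q, Q i) (hc' : ∀ i ∈ c, (nbr H D i).card + 1 ≤ d)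
    (hq' : ∀ i ∈ q, dgP H D i Q + 1 ≤ d) : Com H d l (c ++ q) := by
  refine hR V H d n D (Com H d) ?_ ?_ ?_ ?_ l c q Q hl hD hn hp hc hq hc' hq'
  · intro l hl hD hn
    obtain ⟨w, hw⟩ := ex_of_es hE hQ h l hn hl hD
    exact ⟨w, hw, hw⟩
  · intro l₁ l₂ l₃ h1 _ _ p12 p23 _ _ c12 c23
    exact hT V H d l₁ l₂ l₃ h1.nodup p12 p23 c12 c23
  · intro i l l' h1 _ p hD hn hc
    exact hS V H d i l l' h1.tail'.nodup h1.1 p hc (ex_of_es hE hQ h _ hn h1 hD)
  · intro x y l h1 h2 hD hn
    simp only [List.length_cons] at hn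
    exact hsw l (by omega) x y h1 h2 hD

theorem es_of {V : Type} {H : SimpleGraph V} {d : ℕ} {D : Finset V} (hT : J_TRANS)
    (hS : J_SUF) (hE : J_EXT) (hF : J_SFIRST) (hR : J_RO)
    (hQ : HQ H d D) {n : ℕ} (h : ∀ l : List V, l.length < n → ES H d D l)
    (hsw : ∀ l : List V, l.length < n → SW H d D l) (l : List V) (hn : l.length ≤ n) :
    ES H d D l := by
  classical
  intro hl hD S hSl hSd hcond
  obtain ⟨c, q, hp, hc, hq⟩ := split (fun j => j ∈ S ∨ d ≤ (nbr H D j).card) l
  obtain ⟨q₁, s, hp', h1, h2⟩ := split (fun j => j ∈ S) q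
  have hp2 : l.Perm (c ++ (q₁ ++ s)) := hp.trans (List.Perm.append_left c hp')
  have hmem : ∀ i, i ∈ c ++ (q₁ ++ s) → i ∈ l := fun i hi => hp2.mem_iff.2 hi
  have hcom : Com H d l (c ++ (q₁ ++ s)) := by
    refine ro_of hT hS hE hR hQ h hsw l c (q₁ ++ s)
      (fun j => j ∈ S ∨ d ≤ (nbr H D j).card) hl hD hn hp2 hc ?_ ?_ ?_
    · intro i hi
      exact hq i (hp'.mem_iff.2 hi)
    · intro i hi
      have := hc i hi
      simp only [not_or, not_le] at this
      omega
    · intro i hi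
      have hil : i ∈ l := hmem i (List.mem_append_right _ hi)
      rcases hcond i hil with h3 | h3
      · have := dgP_le (H := H) D i (fun j => j ∈ S ∨ d ≤ (nbr H D j).card)
        omega
      · exact h3
  have hs : s.length ≤ d := by
    have hnd : s.Nodup := by
      have h3 : (c ++ (q₁ ++ s)).Nodup := hp2.nodup_iff.1 hl.nodup
      exact ((List.nodup_append.1 (List.nodup_append.1 h3).2.1).2.1)
    have h4 : s.toFinset ⊆ S := fun i hi => h2 i (List.mem_toFinset.1 hi)
    have h5 := Finset.card_le_card h4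
    rw [List.toFinset_card_of_nodup hnd] at h5
    omega
  rw [← List.append_assoc] at hp2 hcom
  obtain ⟨w, hw, hw2⟩ := hF V H d l (c ++ q₁) s hl.nodup hp2 hcom hs
  refine ⟨w, hw, ?_⟩
  unfold LI
  have : (S : Set V) ⊆ {i | i ∈ s} := by
    intro i hi
    have hi' : i ∈ S := hi
    have h3 := hp2.mem_iff.1 (hSl i hi')
    rw [List.append_assoc, List.mem_append, List.mem_append] at h3
    rcases h3 with h3 | h3 | h3
    · exact absurd (Or.inl hi') (hc i h3)
    · exact absurd hi' (h1 i h3)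
    · exact h3
  exact LinearIndepOn.mono hw2 this

theorem sw_of {V : Type} {H : SimpleGraph V} {d : ℕ} {D : Finset V} (hT : J_TRANS)
    (hS : J_SUF) (hE : J_EXT) (hN : J_SWN) (hA : J_SWA) (hR : J_RO) (hG : HG H d D)
    (hQ : HQ H d D) {n : ℕ} (h : ∀ l : List V, l.length < n → ES H d D l)
    (hsw : ∀ l : List V, l.length < n → SW H d D l) (l : List V) (hn : l.length ≤ n)
    (hes : ES H d D l) : SW H d D l := by
  classical
  intro x y h1 h2 hD
  have hlA : Adm H d l := h1.tail'.tail'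
  have hlN : l.Nodup := hlA.nodup
  have hxl : x ∉ l := h1.2.2.1
  have hyl : y ∉ l := h2.2.2.1
  have hyx : y ≠ x := by
    intro e
    exact h1.1 (e ▸ List.mem_cons_self)
  have hlD : ∀ j ∈ l, j ∈ D := fun j hj => hD j (by simp [hj])
  have hxD : x ∈ D := hD x (by simp)
  have hyD : y ∈ D := hD y (by simp)
  by_cases hadj : H.Adj x y
  · have hmx : nbl H (y :: l) x = insert y (nbl H l x) := by
      ext j
      rw [mem_nbl, Finset.mem_insert, mem_nbl, List.mem_cons]
      constructor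
      · rintro ⟨h3 | h3, h4⟩
        · exact Or.inl h3
        · exact Or.inr ⟨h3, h4⟩
      · rintro (h3 | h3)
        · exact ⟨Or.inl h3, h3 ▸ hadj⟩
        · exact ⟨Or.inr h3.1, h3.2⟩
    have hmy : nbl H (x :: l) y = insert x (nbl H l y) := by
      ext j
      rw [mem_nbl, Finset.mem_insert, mem_nbl, List.mem_cons]
      constructor
      · rintro ⟨h3 | h3, h4⟩
        · exact Or.inl h3
        · exact Or.inr ⟨h3, h4⟩
      · rintro (h3 | h3)
        · exact ⟨Or.inl h3, h3 ▸ hadj.symm⟩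
        · exact ⟨Or.inr h3.1, h3.2⟩
    have hcx : (nbl H l x).card + 2 ≤ d := by
      have h3 := h2.2.1
      rw [hmx, Finset.card_insert_of_notMem (fun h4 => hyl (mem_nbl.1 h4).1)] at h3
      omega
    have hcy : (nbl H l y).card + 2 ≤ d := by
      have h3 := h1.2.1
      rw [hmy, Finset.card_insert_of_notMem (fun h4 => hxl (mem_nbl.1 h4).1)] at h3
      omega
    obtain ⟨c, q, hp, hc, hq⟩ := split (fun j => H.Adj x j ∨ H.Adj y j ∨
      d ≤ (nbr H D j).card) l
    obtain ⟨q₁, u, hp', h3, h4⟩ := split (fun j => H.Adj x j ∨ H.Adj y j) q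
    have hp2 : l.Perm (c ++ (q₁ ++ u)) := hp.trans (List.Perm.append_left c hp')
    have hmem : ∀ i, i ∈ c ++ (q₁ ++ u) → i ∈ l := fun i hi => hp2.mem_iff.2 hi
    have hcom : Com H d l (c ++ (q₁ ++ u)) := by
      refine ro_of hT hS hE hR hQ h hsw l c (q₁ ++ u) (fun j => H.Adj x j ∨ H.Adj y j ∨
        d ≤ (nbr H D j).card) hlA hlD hn hp2 hc ?_ ?_ ?_
      · intro i hi
        exact hq i (hp'.mem_iff.2 hi)
      · intro i hi
        have h5 := hc i hi
        simp only [not_or, not_le] at h5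
        omega
      · intro i hi
        have hil : i ∈ l := hmem i (List.mem_append_right _ hi)
        have hix : i ≠ x := fun e => hxl (e ▸ hil)
        have hiy : i ≠ y := fun e => hyl (e ▸ hil)
        rcases hQ x hxD y hyD i (hlD i hil) hix hiy with h5 | h5
        · have := dgP_le (H := H) D i (fun j => H.Adj x j ∨ H.Adj y j ∨
            d ≤ (nbr H D j).card)
          omega
        · omega
    have hu : ∀ j ∈ l, (H.Adj x j ∨ H.Adj y j) → j ∈ u := by
      intro j hj hj2
      have h5 := hp2.mem_iff.1 hj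
      rw [List.mem_append, List.mem_append] at h5
      rcases h5 with h5 | h5 | h5
      · exact absurd (by tauto) (hc j h5)
      · exact absurd hj2 (h3 j h5)
      · exact h5
    have hul : ∀ j ∈ u, j ∈ l := fun j hj =>
      hmem j (List.mem_append_right _ (List.mem_append_right _ hj))
    have hun : u.Nodup := by
      have h5 : (c ++ (q₁ ++ u)).Nodup := hp2.nodup_iff.1 hlN
      exact ((List.nodup_append.1 (List.nodup_append.1 h5).2.1).2.1)
    have hgen : Gen H (d - 2) u.toFinset := by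
      refine hG x hxD y hyD hadj u.toFinset ?_
      intro j hj
      rw [List.mem_toFinset] at hj
      have hjl := hul j hj
      exact ⟨hlD j hjl, fun e => hxl (e ▸ hjl), fun e => hyl (e ▸ hjl), h4 j hj⟩
    have hnx : nbl H u x = nbl H l x := by
      ext j
      rw [mem_nbl, mem_nbl]
      exact ⟨fun h5 => ⟨hul j h5.1, h5.2⟩, fun h5 => ⟨hu j h5.1 (Or.inl h5.2), h5.2⟩⟩
    have hny : nbl H u y = nbl H l y := by
      ext j
      rw [mem_nbl, mem_nbl]
      exact ⟨fun h5 => ⟨hul j h5.1, h5.2⟩, fun h5 => ⟨hu j h5.1 (Or.inr h5.2), h5.2⟩⟩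
    rw [← List.append_assoc] at hp2 hcom
    refine hA V H d x y l (c ++ q₁) u hadj hlN hxl hyl hp2 hcom ?_ hcx hcy ?_ ?_
    · intro j hj
      rw [List.mem_append] at hj
      rcases hj with hj | hj
      · have := hc j hj
        tauto
      · have := h3 j hj
        tauto
    · exact hgen u hun (fun j hj => List.mem_toFinset.2 hj) (nbl H u x)
        (fun j hj => (mem_nbl.1 hj).1) (by rw [hnx]; omega)
    · exact hgen u hun (fun j hj => List.mem_toFinset.2 hj) (nbl H u y)
        (fun j hj => (mem_nbl.1 hj).1) (by rw [hny]; omega)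
  · have hcx : (nbl H l x).card + 1 ≤ d := h1.tail'.2.1
    have hcy : (nbl H l y).card + 1 ≤ d := h2.tail'.2.1
    exact hN V H d x y l hyx.symm hadj hxl hyl hlN
      (es_nbl hQ hlA hlD hxD hxl hcx hes) (es_nbl hQ hlA hlD hyD hyl hcy hes)

theorem t_STEP (hT : J_TRANS) (hS : J_SUF) (hE : J_EXT) (hN : J_SWN) (hA : J_SWA)
    (hF : J_SFIRST) (hR : J_RO) : J_STEP := by
  intro V H d D hG hQ
  have key : ∀ n : ℕ, ∀ l : List V, l.length ≤ n → ES H d D l ∧ SW H d D l := by
    intro n
    induction n with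
    | zero =>
      intro l hn
      have h0 : ∀ l : List V, l.length < 0 → ES H d D l := fun l hl => absurd hl (by omega)
      have h0' : ∀ l : List V, l.length < 0 → SW H d D l := fun l hl => absurd hl (by omega)
      have h1 := es_of hT hS hE hF hR hQ h0 h0' l hn
      exact ⟨h1, sw_of hT hS hE hN hA hR hG hQ h0 h0' l hn h1⟩
    | succ n ih =>
      intro l hn
      have h0 : ∀ l : List V, l.length < n + 1 → ES H d D l := fun l hl => (ih l (by omega)).1
      have h0' : ∀ l : List V, l.length < n + 1 → SW H d D l := fun l hl => (ih l (by omega)).2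
      have h1 := es_of hT hS hE hF hR hQ h0 h0' l hn
      exact ⟨h1, sw_of hT hS hE hN hA hR hG hQ h0 h0' l hn h1⟩
  intro l hl hD S h1 h2 h3
  exact (key l.length l le_rfl).1 hl hD S h1 h2 h3

end Pool.Agent.Run7.h207.GC
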