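import Pool.Agent.Run7.h207.GC.FIN
import Pool.Agent.Run7.h207.GC.STEP
import Pool.Agent.Run7.h207.GC.AA
import Pool.Agent.Run7.h207.GC.IM
import Pool.Agent.Run7.h207.GC.SAP
import Pool.Agent.Run7.h194.GC.BASE
import Pool.Agent.Run7.h547.GC.BIN
import Pool.Agent.Run7.h547.GC.FTH
import Pool.Agent.Run7.h547.GC.SUCC
import Pool.Agent.Run7.h704.GC.BLK
import Pool.Agent.Run7.h379.GC.PC
import Pool.Agent.Run7.h11.GC.R1
import Pool.Agent.Run7.h11.GC.RO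
import Pool.Agent.Run7.h11.GC.SWA
import Pool.Agent.Run7.h590.GC.TAIL
import Pool.Agent.Run7.h207.GC.R23
import Pool.Agent.Run7.h227.GC.Bas
import Pool.Agent.Run7.h834.GC.TRANS

set_option autoImplicit false

/-!
# Assembly: `J_AA`

Pieces: helper834 (TRANS), helper227 (SUF, EXT, SWN, SFIRST), helper11 (SWA, RO, R1), helper344
(SAP), helper704 (BLOCK, INNER), helper382 (IM), helper379 (PC), helper547 (FTH, BIN, SUCC),
helper194 (GEN, BASE, DET), helper590 (TAIL, R2, R3), helper354 (AA), helper207 (STEP).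
-/

namespace Pool.Agent.Run7.h207.GC

theorem a_IM : J_IM := t_IM
theorem a_PC : J_PC := Pool.Agent.Run7.h379.GC.t_PC
theorem a_STEP : J_STEP :=
  t_STEP (Pool.Agent.Run7.h834.GC.t_TRANS a_IM a_PC) (Pool.Agent.Run7.h227.GC.t_SUF a_IM a_PC)
    Pool.Agent.Run7.h227.GC.t_EXT (Pool.Agent.Run7.h227.GC.t_SWN a_IM a_PC)
    (Pool.Agent.Run7.h11.GC.t_SWA a_IM a_PC) (Pool.Agent.Run7.h227.GC.t_SFIRST a_IM a_PC)
    Pool.Agent.Run7.h11.GC.t_RO
theorem a_DET : J_DET :=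
  Pool.Agent.Run7.h194.GC.t_DET (Pool.Agent.Run7.h194.GC.t_GEN a_STEP)
    Pool.Agent.Run7.h194.GC.t_BASE (Pool.Agent.Run7.h547.GC.t_FTH a_IM a_PC a_STEP) t_SAP
theorem a_R1 : J_R1 :=
  Pool.Agent.Run7.h11.GC.t_R1 (Pool.Agent.Run7.h547.GC.t_SUCC Pool.Agent.Run7.h547.GC.t_BIN)
    Pool.Agent.Run7.h704.GC.t_BLOCK Pool.Agent.Run7.h704.GC.t_INNER

/-- **almost all graphs** -/
theorem aa : J_AA :=
  AA.t_AA a_DET a_R1 (R23.t_R2 Run7.h590.GC.t_TAIL) (R23.t_R3 Run7.h590.GC.t_TAIL)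

end Pool.Agent.Run7.h207.GC
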