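import Pool.Agent.Run7.h207.GC.Iface

set_option autoImplicit false

namespace Pool.Agent.Run7.h207.GC

open Finset Filter Topology Pool.Agent.H162R2.AG Pool.Agent.Y404.GccSap

theorem cnt_compl {Ω : Type} [Fintype Ω] (P : Ω → Prop) :
    cnt P + cnt (fun ω => ¬ P ω) = Fintype.card Ω := by
  classical
  rw [cnt_eq_card, cnt_eq_card]
  have := Finset.card_filter_add_card_filter_not (s := (univ : Finset Ω)) P
  rw [Finset.card_univ] at this
  exact_mod_cast this

theorem tendsto_of_AA (hAA : J_AA) (C : ℝ) (P : ∀ n : ℕ, SimpleGraph (Fin n) → Prop)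
    (h : ∀ (n : ℕ) (G : SimpleGraph (Fin n)) (d : ℕ), (d : ℝ) ≤ n / 2 - C * √n → HasSap G d →
      HasSap Gᶜ d → P n G) :
    Tendsto (fun n : ℕ => ({G : SimpleGraph (Fin n) | P n G}.ncard : ℝ) /
      (Nat.card (SimpleGraph (Fin n)) : ℝ)) atTop (𝓝 1) := by
  classical
  rw [Metric.tendsto_atTop]
  intro ε hε
  obtain ⟨n₀, hn₀⟩ := hAA C (ε / 2) (by linarith)
  refine ⟨n₀, fun n hn => ?_⟩
  have h1 := hn₀ n hn
  have hcard : (0 : ℝ) < Fintype.card (SimpleGraph (Fin n)) := by
    exact_mod_cast Fintype.card_pos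
  have h2 : cnt (fun G : SimpleGraph (Fin n) => ¬ P n G) ≤
      ε / 2 * Fintype.card (SimpleGraph (Fin n)) := by
    refine le_trans (cnt_mono ?_) h1
    intro G hG hcon
    obtain ⟨d, hd, h3, h4⟩ := hcon
    exact hG (h n G d hd h3 h4)
  have h3 := cnt_compl (fun G : SimpleGraph (Fin n) => P n G)
  have h4 : ({G : SimpleGraph (Fin n) | P n G}.ncard : ℝ) =
      cnt (fun G : SimpleGraph (Fin n) => P n G) := by
    unfold cnt
    rw [← Set.ncard_coe_finset]
    congr 2
    ext G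
    simp
  rw [h4, Nat.card_eq_fintype_card, Real.dist_eq, abs_lt]
  have h5 : cnt (fun G : SimpleGraph (Fin n) => P n G) / Fintype.card (SimpleGraph (Fin n)) =
      1 - cnt (fun G : SimpleGraph (Fin n) => ¬ P n G) / Fintype.card (SimpleGraph (Fin n)) := by
    rw [eq_sub_iff_add_eq, ← add_div, h3, div_self hcard.ne']
  rw [h5]
  have h6 : cnt (fun G : SimpleGraph (Fin n) => ¬ P n G) / Fintype.card (SimpleGraph (Fin n)) ≤
      ε / 2 := by
    rw [div_le_iff₀ hcard]
    exact h2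
  have h7 : 0 ≤ cnt (fun G : SimpleGraph (Fin n) => ¬ P n G) /
      Fintype.card (SimpleGraph (Fin n)) := div_nonneg (cnt_nonneg _) hcard.le
  constructor <;> linarith

end Pool.Agent.Run7.h207.GC
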